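import Pool.Agent.H354.BG.Stm

set_option autoImplicit false

/-! Project BG, task R12: the predicates `P1` and `P2` are decidable. -/

namespace Pool.Agent.H379.BG.R12

open Pool.Agent.H354.BG
open Pool.Agent.H482R3.EA (W inv ev PP xx evF cond1 cond2 Syl gOf Sys St Near InD Adm Act)
open Pool.Agent.H482R3.EB (tot wp alt rels AR gR TR Tame Symm alt_length)

theorem comp_cp {α β : Type} [Primcodable α] [Primcodable β] {p : β → Prop} {f : α → β}
    (hp : ComputablePred p) (hf : Computable f) : ComputablePred fun x => p (f x) := by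
  obtain ⟨g, hg, rfl⟩ := ComputablePred.computable_iff.1 hp
  exact ComputablePred.computable_iff.2 ⟨fun x => g (f x), hg.comp hf, rfl⟩

/-- the syllables of a valid code are in the right blocks -/
theorem vc_ok (D : Dat) (U : Finset (Fin D.r)) (b : Fin D.r) :
    ∀ (code : List (Sy D)) (s : Option (Sy D)), VC D U b s code → ∀ a ∈ code, okS D U b a := by
  intro code
  induction code with
  | nil => intro s _ a ha; simp at ha
  | cons c l ih =>
    intro s hv a ha
    obtain ⟨h1, h2⟩ := hv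
    rcases List.mem_cons.1 ha with rfl | ha
    · rcases a with ⟨g, v, e, n⟩ | ⟨g, y⟩ | ⟨g, v, w, y⟩
      · exact h1.1
      · trivial
      · exact h1.1
    · exact ih _ h2 a ha

/-- values of valid codes are in `par (insert b U)` -/
theorem val_rho (hvr : S_VRHO) (D : Dat) (U : Finset (Fin D.r)) (b : Fin D.r) (hb : b ∉ U)
    (code : List (Sy D)) (h : ∀ a ∈ code, okS D U b a) :
    rho D (insert b U) (gEl D (code.flatMap (valS D U b))) =
      gEl D (code.flatMap (valS D U b)) := by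
  induction code with
  | nil => exact map_one _
  | cons a l ih =>
    rw [List.flatMap_cons, gEl_append, map_mul, (hvr D U b hb a (h a (by simp))).1,
      ih (fun x hx => h x (by simp [hx]))]

/-- the equation of a code as a word problem -/
theorem eq_iff (hvr : S_VRHO) (D : Dat) (U : Finset (Fin D.r)) (b : Fin D.r) (hb : b ∉ U)
    (code : List (Sy D)) (hv : VC D U b none code) (u : W (Fin D.n)) :
    rho D (insert b U) (gEl D (inv (code.flatMap (valS D U b) ++ flt D U u) ++ u)) = 1 ↔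
      rho D (insert b U) (gEl D u) =
        gEl D (code.flatMap (valS D U b)) * rho D U (gEl D u) := by
  rw [gEl_append, gEl_inv, gEl_append, map_mul, map_inv, map_mul,
    val_rho hvr D U b hb code (vc_ok D U b code none hv), ← rho_gEl D U u,
    rho_rho_sub' D (Finset.subset_insert b U), inv_mul_eq_one]
  exact eq_comm

/-- the predicate that `y` is a valid code of `u`, in decidable form -/
def Cd (D : Dat) (U : Finset (Fin D.r)) (b : Fin D.r) (u : W (Fin D.n)) (y : List (Sy D)) :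
    Prop :=
  VC D U b none y ∧
    rho D (insert b U) (gEl D (inv (y.flatMap (valS D U b) ++ flt D U u) ++ u)) = 1

theorem cd_comp (hv : S_VCC) (hval : S_VALC) (hbas : S_BASX) (D : Dat) (U : Finset (Fin D.r))
    (b : Fin D.r) (hb : b ∉ U) (hsys : SysOK D U b) (hU : WPU D U) (hbW : WPU D {b})
    (hall : Rall D U b) (hUb : WPU D (insert b U)) :
    ComputablePred fun x : W (Fin D.n) × List (Sy D) => Cd D U b x.1 x.2 := by
  have g1 : ComputablePred fun x : W (Fin D.n) × List (Sy D) => VC D U b none x.2 :=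
    comp_cp (p := fun code : List (Sy D) => VC D U b none code)
      (hv D U b hb hsys hU hbW hall) Computable.snd
  have f1 : Computable fun x : W (Fin D.n) × List (Sy D) =>
      inv (x.2.flatMap (valS D U b) ++ flt D U x.1) ++ x.1 :=
    (Primrec.list_append.to_comp).comp
      (((hbas D).1).comp ((Primrec.list_append.to_comp).comp
        ((hval D U b).comp Computable.snd) (((hbas D).2.1 U).comp Computable.fst)))
      Computable.fst
  have g2 : ComputablePred fun x : W (Fin D.n) × List (Sy D) =>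
      rho D (insert b U) (gEl D (inv (x.2.flatMap (valS D U b) ++ flt D U x.1) ++ x.1)) = 1 :=
    comp_cp (p := fun u : W (Fin D.n) => rho D (insert b U) (gEl D u) = 1) hUb f1
  exact (Pool.Agent.H482R3.EB.Asm.cp (W (Fin D.n) × List (Sy D)) inferInstance 0).1 _ _ g1 g2

/-- a predicate which is read off from every valid code is decidable -/
theorem main (hcode : S_CODE) (hv : S_VCC) (hval : S_VALC) (hbas : S_BASX) (hvr : S_VRHO)
    (D : Dat) (U : Finset (Fin D.r))
    (b : Fin D.r) (hb : b ∉ U) (hsys : SysOK D U b) (hU : WPU D U) (hbW : WPU D {b})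
    (hall : Rall D U b) (hUb : WPU D (insert b U)) (Q : W (Fin D.n) → Fin D.n → Prop)
    (S : List (Sy D) × Fin D.n → Prop) (hS : ComputablePred S)
    (hQS : ∀ u v code, D.β v = b → VC D U b none code →
      rho D (insert b U) (gEl D u) =
        gEl D (code.flatMap (valS D U b)) * rho D U (gEl D u) → (Q u v ↔ S (code, v))) :
    ComputablePred fun p : W (Fin D.n) × Fin D.n => D.β p.2 = b ∧ Q p.1 p.2 := by
  have hX := Pool.Agent.H482R3.EB.Asm.rex
  have hP := Pool.Agent.H482R3.EB.Asm.cp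
  have hcd := cd_comp hv hval hbas D U b hb hsys hU hbW hall hUb
  have hβ : ComputablePred fun v : Fin D.n => D.β v = b :=
    (PrimrecPred.computablePred (Primrec.eq.comp (Primrec.dom_finite D.β) (Primrec.const b)))
  have hex : ∀ u : W (Fin D.n), ∃ y, Cd D U b u y := by
    intro u
    obtain ⟨y, h1, h2⟩ := hcode D U b hb hsys u
    exact ⟨y, h1, (eq_iff hvr D U b hb y h1 u).2 h2⟩
  have k1 : ComputablePred fun x : (W (Fin D.n) × Fin D.n) × List (Sy D) =>
      Cd D U b x.1.1 x.2 :=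
    comp_cp (p := fun x : W (Fin D.n) × List (Sy D) => Cd D U b x.1 x.2) hcd
      ((Computable.fst.comp Computable.fst).pair Computable.snd)
  have k2 : ComputablePred fun x : (W (Fin D.n) × Fin D.n) × List (Sy D) => D.β x.1.2 = b :=
    comp_cp (p := fun v : Fin D.n => D.β v = b) hβ (Computable.snd.comp Computable.fst)
  have k3 : ComputablePred fun x : (W (Fin D.n) × Fin D.n) × List (Sy D) => S (x.2, x.1.2) :=
    comp_cp (p := S) hS (Computable.snd.pair (Computable.snd.comp Computable.fst))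
  have cp := hP ((W (Fin D.n) × Fin D.n) × List (Sy D)) inferInstance 0
  rw [ComputablePred.computable_iff_re_compl_re']
  constructor
  · refine REPred.of_eq (hX (W (Fin D.n) × Fin D.n) (List (Sy D)) inferInstance inferInstance
      (fun x => Cd D U b x.1.1 x.2 ∧ (D.β x.1.2 = b ∧ S (x.2, x.1.2)))
      (cp.1 _ _ k1 (cp.1 _ _ k2 k3)).to_re) ?_
    rintro ⟨u, v⟩
    constructor
    · rintro ⟨y, ⟨h1, h2⟩, h3, h4⟩
      exact ⟨h3, (hQS u v y h3 h1 ((eq_iff hvr D U b hb y h1 u).1 h2)).2 h4⟩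
    · rintro ⟨h3, h4⟩
      obtain ⟨y, h1, h2⟩ := hex u
      exact ⟨y, ⟨h1, h2⟩, h3, (hQS u v y h3 h1 ((eq_iff hvr D U b hb y h1 u).1 h2)).1 h4⟩
  · refine REPred.of_eq (hX (W (Fin D.n) × Fin D.n) (List (Sy D)) inferInstance inferInstance
      (fun x => Cd D U b x.1.1 x.2 ∧ ¬ (D.β x.1.2 = b ∧ S (x.2, x.1.2)))
      (cp.1 _ _ k1 (ComputablePred.not (cp.1 _ _ k2 k3))).to_re) ?_
    rintro ⟨u, v⟩
    constructor
    · rintro ⟨y, ⟨h1, h2⟩, h3⟩ ⟨h4, h5⟩
      exact h3 ⟨h4, (hQS u v y h4 h1 ((eq_iff hvr D U b hb y h1 u).1 h2)).1 h5⟩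
    · intro h3
      obtain ⟨y, h1, h2⟩ := hex u
      exact ⟨y, ⟨h1, h2⟩, fun ⟨h4, h5⟩ =>
        h3 ⟨h4, (hQS u v y h4 h1 ((eq_iff hvr D U b hb y h1 u).1 h2)).2 h5⟩⟩

theorem rhoU_ins (D : Dat) (U : Finset (Fin D.r)) (b : Fin D.r) (g : D.A) :
    rho D U (rho D (insert b U) g) = rho D U g :=
  rho_rho_sub D (Finset.subset_insert b U) g

theorem p1_iff (D : Dat) (U : Finset (Fin D.r)) (b : Fin D.r) (hb : b ∉ U) (u : W (Fin D.n))
    (v : Fin D.n) (hv : D.β v = b) (z : D.A)
    (hz : rho D (insert b U) (gEl D u) = z * rho D U (gEl D u)) :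
    P1 D U b u v ↔ ∃ (i : ℤ) (h : D.A), h ∈ par D U ∧ z = h * gR D.m v ^ i * h⁻¹ := by
  have hvU : D.β v ∉ U := by rw [hv]; exact hb
  constructor
  · rintro ⟨i, h₁, h₂, m₁, m₂, e⟩
    have e2 : rho D U (gEl D u) = h₁ * h₂ := by
      rw [← rhoU_ins D U b, e, map_mul, map_mul, rho_zpow_out D hvU, mul_one,
        rho_of_par D m₁, rho_of_par D m₂]
    refine ⟨i, h₁, m₁, ?_⟩
    have e3 : z = rho D (insert b U) (gEl D u) * (rho D U (gEl D u))⁻¹ := by
      rw [hz, mul_inv_cancel_right]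
    rw [e3, e, e2]
    group
  · rintro ⟨i, h, m, e⟩
    refine ⟨i, h, h⁻¹ * rho D U (gEl D u), m, Subgroup.mul_mem _ (Subgroup.inv_mem _ m)
      (rho_mem D U _), ?_⟩
    rw [hz, e]
    group

theorem p2_iff (D : Dat) (U : Finset (Fin D.r)) (b : Fin D.r) (hb : b ∉ U) (u : W (Fin D.n))
    (v : Fin D.n) (hv : D.β v = b) (z : D.A)
    (hz : rho D (insert b U) (gEl D u) = z * rho D U (gEl D u)) :
    P2 D U b u v ↔ ∃ (j i : ℤ) (h : D.A), h ∈ par D U ∧
      z = gR D.m v ^ j * h * gR D.m v ^ i * h⁻¹ := by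
  have hvU : D.β v ∉ U := by rw [hv]; exact hb
  constructor
  · rintro ⟨j, i, h₁, h₂, m₁, m₂, e⟩
    have e2 : rho D U (gEl D u) = h₁ * h₂ := by
      rw [← rhoU_ins D U b, e, map_mul, map_mul, map_mul, rho_zpow_out D hvU,
        rho_zpow_out D hvU, mul_one, one_mul, rho_of_par D m₁, rho_of_par D m₂]
    refine ⟨j, i, h₁, m₁, ?_⟩
    have e3 : z = rho D (insert b U) (gEl D u) * (rho D U (gEl D u))⁻¹ := by
      rw [hz, mul_inv_cancel_right]
    rw [e3, e, e2]
    group
  · rintro ⟨j, i, h, m, e⟩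
    refine ⟨j, i, h, h⁻¹ * rho D U (gEl D u), m, Subgroup.mul_mem _ (Subgroup.inv_mem _ m)
      (rho_mem D U _), ?_⟩
    rw [hz, e]
    group

theorem t_R12 (hcode : S_CODE) (hshp : S_SHP) (hv : S_VCC) (hval : S_VALC) (hshc : S_SHC)
    (hbas : S_BASX) (hvr : S_VRHO) : S_R12 := by
  intro D U b hb hsys hU hbW hall hUb
  obtain ⟨s1, s2⟩ := hshc D U b hb hU
  constructor
  · refine main hcode hv hval hbas hvr D U b hb hsys hU hbW hall hUb (P1 D U b)
      (fun p => Sh1 D p.2 p.1) s1 ?_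
    intro u v code hvb hvc he
    rw [p1_iff D U b hb u v hvb _ he]
    exact (hshp D U b hb hsys v hvb code hvc).1
  · refine main hcode hv hval hbas hvr D U b hb hsys hU hbW hall hUb (P2 D U b)
      (fun p => (∀ a ∈ p.1, okS D U b a) ∧ Sh2 D U b p.2 p.1) s2 ?_
    intro u v code hvb hvc he
    rw [p2_iff D U b hb u v hvb _ he]
    refine (hshp D U b hb hsys v hvb code hvc).2.trans ?_
    exact ⟨fun h => ⟨vc_ok D U b code none hvc, h⟩, fun h => h.2⟩

end Pool.Agent.H379.BG.R12
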