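import Pool.Agent.H354.BG.Stm

set_option autoImplicit false

/-! Project BG, task STEPW: the word problem of `A_{U ∪ b}` (adapted from the library `STEPB`). -/

namespace Pool.Agent.H379.BG.STEPW

open Pool.Agent.H354.BG
open Pool.Agent.H482R3.EA (W inv ev PP xx evF cond1 cond2 Syl gOf Sys St Near InD Adm Act)
open Pool.Agent.H482R3.EB (tot wp alt rels AR gR TR Tame Symm alt_length)

theorem comp_cp {α β : Type} [Primcodable α] [Primcodable β] {p : β → Prop} {f : α → β}
    (hp : ComputablePred p) (hf : Computable f) : ComputablePred fun x => p (f x) := by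
  obtain ⟨g, hg, rfl⟩ := ComputablePred.computable_iff.1 hp
  exact ComputablePred.computable_iff.2 ⟨fun x => g (f x), hg.comp hf, rfl⟩

theorem nil_cp {α : Type} [Primcodable α] : ComputablePred fun l : List α => l ≠ [] := by
  have h1 : PrimrecPred fun l : List α => l.length ≠ 0 := by
    exact (Primrec.eq.comp Primrec.list_length (Primrec.const 0)).not
  exact h1.computablePred.of_eq fun l => by simp [List.length_eq_zero_iff]

/-- the syllables of a valid code are in the right blocks -/
theorem vc_ok (D : Dat) (U : Finset (Fin D.r)) (b : Fin D.r) :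
    ∀ (code : List (Sy D)) (s : Option (Sy D)), VC D U b s code → ∀ a ∈ code, okS D U b a := by
  intro code
  induction code with
  | nil => intro s _ a ha; simp at ha
  | cons c l ih =>
    intro s hv a ha
    obtain ⟨h1, h2⟩ := hv
    rcases List.mem_cons.1 ha with rfl | ha
    · rcases a with ⟨g, v, e, n⟩ | ⟨g, y⟩ | ⟨g, v, w, y⟩
      · exact h1.1
      · trivial
      · exact h1.1
    · exact ih _ h2 a ha

/-- values of valid codes are in `par (insert b U)` -/
theorem val_rho (hvr : S_VRHO) (D : Dat) (U : Finset (Fin D.r)) (b : Fin D.r) (hb : b ∉ U)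
    (code : List (Sy D)) (h : ∀ a ∈ code, okS D U b a) :
    rho D (insert b U) (gEl D (code.flatMap (valS D U b))) =
      gEl D (code.flatMap (valS D U b)) := by
  induction code with
  | nil => exact map_one _
  | cons a l ih =>
    rw [List.flatMap_cons, gEl_append, map_mul, (hvr D U b hb a (h a (by simp))).1,
      ih (fun x hx => h x (by simp [hx]))]

/-- the equation of a code as a word problem -/
theorem eq_iff (hvr : S_VRHO) (D : Dat) (U : Finset (Fin D.r)) (b : Fin D.r) (hb : b ∉ U)
    (code : List (Sy D)) (hv : VC D U b none code) (u : W (Fin D.n)) :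
    rho D (insert b U) (gEl D (inv (code.flatMap (valS D U b) ++ flt D U u) ++ u)) = 1 ↔
      rho D (insert b U) (gEl D u) =
        gEl D (code.flatMap (valS D U b)) * rho D U (gEl D u) := by
  rw [gEl_append, gEl_inv, gEl_append, map_mul, map_inv, map_mul,
    val_rho hvr D U b hb code (vc_ok D U b code none hv), ← rho_gEl D U u,
    rho_rho_sub' D (Finset.subset_insert b U), inv_mul_eq_one]
  exact eq_comm

theorem t_STEPW (hc : S_CERTX) (hv : S_VCC) (hval : S_VALC) (hre : S_REU) (hvr : S_VRHO)
    (hbas : S_BASX) : S_STEPW := by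
  intro D U b hb hsys hU hbW hall
  unfold WPU
  rw [ComputablePred.computable_iff_re_compl_re']
  refine ⟨hre D (insert b U), ?_⟩
  have e : ∀ u : W (Fin D.n), (∃ y : List (Sy D), VC D U b none y ∧
      (rho D (insert b U) (gEl D (inv (y.flatMap (valS D U b) ++ flt D U u) ++ u)) = 1 ∧
        (y ≠ [] ∨ ¬ rho D U (gEl D u) = 1))) ↔ ¬ rho D (insert b U) (gEl D u) = 1 := by
    intro u
    refine Iff.trans ?_ (hc D U b hb hsys u).symm
    constructor
    · rintro ⟨code, h1, h2, h3⟩
      exact ⟨code, h1, (eq_iff hvr D U b hb code h1 u).1 h2, h3⟩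
    · rintro ⟨code, h1, h2, h3⟩
      exact ⟨code, h1, (eq_iff hvr D U b hb code h1 u).2 h2, h3⟩
  have hX := Pool.Agent.H482R3.EB.Asm.rex
  have hK := Pool.Agent.H482R3.EB.Asm.rec'
  have hP := Pool.Agent.H482R3.EB.Asm.cp
  refine REPred.of_eq (hX (W (Fin D.n)) (List (Sy D)) inferInstance inferInstance
    (fun x => VC D U b none x.2 ∧
      (rho D (insert b U) (gEl D (inv (x.2.flatMap (valS D U b) ++ flt D U x.1) ++ x.1)) = 1 ∧
        (x.2 ≠ [] ∨ ¬ rho D U (gEl D x.1) = 1))) ?_) e
  have g1 : REPred fun x : W (Fin D.n) × List (Sy D) => VC D U b none x.2 :=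
    (comp_cp (p := fun code : List (Sy D) => VC D U b none code)
      (hv D U b hb hsys hU hbW hall) Computable.snd).to_re
  have f1 : Computable fun x : W (Fin D.n) × List (Sy D) =>
      inv (x.2.flatMap (valS D U b) ++ flt D U x.1) ++ x.1 :=
    (Primrec.list_append.to_comp).comp
      (((hbas D).1).comp ((Primrec.list_append.to_comp).comp
        ((hval D U b).comp Computable.snd) (((hbas D).2.1 U).comp Computable.fst)))
      Computable.fst
  have g2 := (hK (W (Fin D.n) × List (Sy D)) (W (Fin D.n)) inferInstance inferInstance).2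
    (fun u => rho D (insert b U) (gEl D u) = 1) _ (hre D (insert b U)) f1
  have g3 : ComputablePred fun x : W (Fin D.n) × List (Sy D) => x.2 ≠ [] :=
    comp_cp (p := fun l : List (Sy D) => l ≠ []) nil_cp Computable.snd
  have g4 : ComputablePred fun x : W (Fin D.n) × List (Sy D) => ¬ rho D U (gEl D x.1) = 1 :=
    comp_cp (p := fun g : W (Fin D.n) => ¬ rho D U (gEl D g) = 1)
      (ComputablePred.not hU) Computable.fst
  have g5 := ((hP (W (Fin D.n) × List (Sy D)) inferInstance 0).2.1 _ _ g3 g4).to_re
  have hand := (hK (W (Fin D.n) × List (Sy D)) (W (Fin D.n)) inferInstance inferInstance).1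
  exact hand _ _ g1 (hand _ _ g2 g5)

end Pool.Agent.H379.BG.STEPW
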